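import Mathlib
import Pool.Agent.RP28b.Final
import Pool.Agent.RP28b.Primes

/-! MP_28accd_nt: for every modulus `m` and all large `k`, every residue class modulo `m` contains
the number `p d n k` of partitions of `n` into parts from `{1^d, ..., k^d}` for a set of `n` of
positive density, at least `k^(-d(m-1))`. -/

namespace Pool.Agent.Results.MP_28accd_nt.AllResidues

open Filter Pool.Agent.RP28b

theorem result : ∀ m : ℕ, 2 ≤ m → ∃ k0 : ℕ, ∀ d k : ℕ, 1 ≤ d →
    (k0 ≤ k ∨ m ≤ ((Finset.Ioc (k / 2) k).filter fun q => q.Prime ∧ ¬ q ∣ m).card + 1) →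
    1 ≤ k ∧ ∀ i : ℕ, ∃ δ : ℝ,
      Tendsto (fun N : ℕ =>
        (((Finset.Icc 1 N).filter fun n => p d n k ≡ i [MOD m]).card : ℝ) / N) atTop (nhds δ) ∧
      1 / (k : ℝ) ^ (d * (m - 1)) ≤ δ := by
  intro m hm
  obtain ⟨k0, hk0⟩ := many_primes m
  refine ⟨max k0 (2 * m + 2), fun d k hd h => ?_⟩
  have hcard : m ≤ ((Finset.Ioc (k / 2) k).filter fun q => q.Prime ∧ ¬ q ∣ m).card + 1 := by
    rcases h with h | h
    · have h1 := hk0 k (le_trans (le_max_left _ _) h)
      have h2 : 2 * m + 2 ≤ k := le_trans (le_max_right _ _) h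
      have h3 : ((Finset.Ioc (k / 2) k).filter Nat.Prime)
          ⊆ ((Finset.Ioc (k / 2) k).filter fun q => q.Prime ∧ ¬ q ∣ m) := by
        intro q hq
        rw [Finset.mem_filter, Finset.mem_Ioc] at hq ⊢
        refine ⟨hq.1, hq.2, fun hdvd => ?_⟩
        have := Nat.le_of_dvd (by omega) hdvd
        omega
      have := Finset.card_le_card h3
      omega
    · exact h
  obtain ⟨Q, hQsub, hQcard⟩ := Finset.exists_subset_card_eq
    (show m - 1 ≤ ((Finset.Ioc (k / 2) k).filter fun q => q.Prime ∧ ¬ q ∣ m).card by omega)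
  have hgood : Good m k Q := by
    intro q hq
    have := hQsub hq
    rw [Finset.mem_filter, Finset.mem_Ioc] at this
    exact ⟨this.2.1, by omega, this.1.2, this.2.2⟩
  have hQne : Q.Nonempty := by rw [← Finset.card_pos]; omega
  have hk1 : 1 ≤ k := by
    obtain ⟨q, hq⟩ := hQne
    have := hgood q hq
    have := this.1.one_lt
    omega
  refine ⟨hk1, fun i => ?_⟩
  obtain ⟨δ, hδ, hle⟩ := density d m k hd hm Q hgood (by omega) i
  refine ⟨δ, hδ, le_trans ?_ hle⟩
  have hpos : (0 : ℝ) < ∏ q ∈ Q, (q : ℝ) ^ d := by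
    apply Finset.prod_pos
    intro q hq
    have : (0 : ℝ) < q := by exact_mod_cast (hgood q hq).1.pos
    positivity
  apply one_div_le_one_div_of_le hpos
  calc ∏ q ∈ Q, (q : ℝ) ^ d ≤ ∏ q ∈ Q, (k : ℝ) ^ d := by
        apply Finset.prod_le_prod
        · intro q _; positivity
        · intro q hq
          have : (q : ℝ) ≤ k := by exact_mod_cast (hgood q hq).2.2.1
          gcongr
    _ = (k : ℝ) ^ (d * (m - 1)) := by rw [Finset.prod_const, hQcard, pow_mul]

end Pool.Agent.Results.MP_28accd_nt.AllResidues
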