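import Pool.Agent.PKP.Transfer
import Pool.Agent.PKP.General

/-!
# Bounds for the densities of the residues of `p_{A_d}(n, k)` through base `q` digits

Let `N = ∑_{2 ≤ j ≤ k} q^(d v_q(j))` and `w_q(N) = ∏ (1 - e/q)` over the base `q` digits `e` of
`N`. With `Λ` the product of the prime to `q` parts of the `j^d`, the `N`-th difference of
`p(n, k)` mod `q` with step `Λ` is eventually a nonzero constant. In characteristic `q` the
`q^s`-th power of the difference operator of step `Λ` is the difference operator of step `q^s Λ`,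
and a polynomial of degree `e < q` has at most `e` roots. Working through the digits of `N` this
gives the upper bound `1 - w_q(N)` for the density of every residue class, and a lower bound for
every residue class if the leading digit is one, which holds for all `k` in `[q^v, 2 q^v)`. For
squares there is in every interval `[q^v, 2 q^v)` a `k` such that the digits of `N` are zero up to
about `log_2 v` ones.
-/

set_option autoImplicit false

namespace Pool.Agent.Results.MP_28accd_nt.DigitBounds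

open Finset Filter Topology Pool.Agent.PKP

/-- `δ` is the natural density of the set of positive integers `n` with
`p_{A_d}(n, k) ≡ i (mod m)` -/
def IsDensity (d k m i : ℕ) (δ : ℝ) : Prop :=
  Tendsto (fun K : ℕ => (((Icc 1 K).filter fun n => P d k n ≡ i [MOD m]).card : ℝ) / (K : ℝ))
    atTop (𝓝 δ)

theorem modEq_iff (q : ℕ) (a i : ℕ) : a ≡ i [MOD q] ↔ (a : ZMod q) = (i : ZMod q) :=
  (ZMod.natCast_eq_natCast_iff a i q).symm

theorem part1 (d k m q i : ℕ) (δ : ℝ) (hk : 2 ≤ k) (hq : q.Prime) (hm : q ∣ m)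
    (hδ : IsDensity d k m i δ) : δ ≤ 1 - w q (Nn q d k) := by
  classical
  have : Fact q.Prime := ⟨hq⟩
  obtain ⟨H, hH, f, A, σ, hf, h0, h1⟩ := exists_f q d k (by omega)
  have hN : 0 < Nn q d k := by
    unfold Nn
    apply sum_pos
    · intro j _; exact pow_pos hq.pos _
    · exact ⟨2, by rw [mem_Icc]; omega⟩
  have hu := upper_final q (Nn q d k) hN σ f (i : ZMod q) h0 h1
  rw [ZMod.card] at hu
  have hc := dens_tendsto H f (fun n => (P d k n : ZMod q)) A hf (i : ZMod q)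
  have hHpos : (0 : ℝ) < H := by exact_mod_cast Nat.pos_of_ne_zero (NeZero.ne H)
  have hle : δ ≤ ((univ.filter fun x : ZMod H => f x = (i : ZMod q)).card : ℝ) / H := by
    apply le_of_tendsto_of_tendsto' hδ hc
    intro t
    apply div_le_div_of_nonneg_right _ (by positivity)
    norm_cast
    apply card_le_card
    intro n hn
    rw [mem_filter] at hn ⊢
    exact ⟨hn.1, (modEq_iff q _ _).1 (hn.2.of_dvd hm)⟩
  refine hle.trans ?_
  rw [div_le_iff₀ hHpos]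
  exact hu

theorem part2 (d k q s N' i : ℕ) (hk : 1 ≤ k) (hq : q.Prime) (hs : N' < q ^ s)
    (hN : Nn q d k = q ^ s + N') : ∃ δ, IsDensity d k q i δ ∧ w q N' / q ≤ δ := by
  classical
  have : Fact q.Prime := ⟨hq⟩
  obtain ⟨H, hH, f, A, σ, hf, h0, h1⟩ := exists_f q d k hk
  rw [hN] at h0 h1
  have hu := lower_final q s N' hs σ f (i : ZMod q) h0 h1
  rw [ZMod.card] at hu
  have hc := dens_tendsto H f (fun n => (P d k n : ZMod q)) A hf (i : ZMod q)
  have hHpos : (0 : ℝ) < H := by exact_mod_cast Nat.pos_of_ne_zero (NeZero.ne H)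
  have hqpos : (0 : ℝ) < q := by exact_mod_cast hq.pos
  refine ⟨_, hc.congr (fun K => ?_), ?_⟩
  · congr 2
    congr 1
    ext n
    simp only [mem_filter]
    rw [modEq_iff]
  · rw [div_le_div_iff₀ hqpos hHpos]
    linarith

theorem part3 (q v : ℕ) (hq : q.Prime) (hv : 1 ≤ v) :
    ∃ k : ℕ, q ^ v ≤ k ∧ k < 2 * q ^ v ∧ ∀ i : ℕ, ∃ δ, IsDensity 2 k q i δ ∧
      (1 / (q : ℝ)) * (1 - 1 / (q : ℝ)) ^ (Nat.log 2 v + 1) ≤ δ ∧
        δ ≤ 1 - (1 - 1 / (q : ℝ)) ^ (Nat.log 2 v + 2) := by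
  have : Fact q.Prime := ⟨hq⟩
  have hq2 := hq.two_le
  have hqpos : (0 : ℝ) < q := by exact_mod_cast hq.pos
  have hpos : 0 ≤ 1 - 1 / (q : ℝ) := by
    have : (1 : ℝ) ≤ q := by exact_mod_cast hq.one_lt.le
    rw [sub_nonneg, div_le_one (by linarith)]
    exact this
  obtain ⟨k, N', s, hk1, hk2, h1, h2, h3⟩ := squares q v hv
  have hk : 2 ≤ k := by
    have h5 : q ^ 1 ≤ q ^ v := Nat.pow_le_pow_right hq.pos hv
    rw [pow_one] at h5
    omega
  refine ⟨k, hk1, hk2, fun i => ?_⟩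
  obtain ⟨δ, hδ, hl⟩ := part2 2 k q s N' i (by omega) hq h1 h2
  refine ⟨δ, hδ, ?_, ?_⟩
  · refine le_trans ?_ hl
    rw [one_div, mul_comm, ← div_eq_mul_inv, ← one_div]
    exact div_le_div_of_nonneg_right h3 hqpos.le
  · have hu := part1 2 k q q i δ hk hq dvd_rfl hδ
    rw [h2, w_add q s hq2 N' h1] at hu
    have : (1 - 1 / (q : ℝ)) ^ (Nat.log 2 v + 2) ≤ (1 - 1 / (q : ℝ)) * w q N' := by
      rw [pow_succ, mul_comm]
      exact mul_le_mul_of_nonneg_left h3 hpos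
    linarith

theorem part2b (d q v k i : ℕ) (hd : 2 ≤ d) (hq : q.Prime) (hv : 1 ≤ v) (h1 : q ^ v ≤ k)
    (h2 : k < 2 * q ^ v) : ∃ δ, IsDensity d k q i δ ∧ w q (Nn q d k - q ^ (d * v)) / q ≤ δ ∧
      1 / ((q : ℝ) * (k : ℝ) ^ d) ≤ δ := by
  have : Fact q.Prime := ⟨hq⟩
  have hqpos : (0 : ℝ) < q := by exact_mod_cast hq.pos
  obtain ⟨h3, h4⟩ := lead_one q d v k hd hv h1 h2
  have hk : 1 ≤ k := le_trans (Nat.one_le_pow _ _ hq.pos) h1
  obtain ⟨δ, hδ, hl⟩ := part2 d k q (d * v) (Nn q d k - q ^ (d * v)) i hk hq h4 (by omega)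
  refine ⟨δ, hδ, hl, le_trans ?_ hl⟩
  have h5 := w_ge q hq.two_le (d * v) _ h4
  have h6 : ((q : ℝ) ^ v) ≤ k := by exact_mod_cast h1
  have h7 : (1 / (q : ℝ)) ^ (d * v) / q ≤ w q (Nn q d k - q ^ (d * v)) / q :=
    div_le_div_of_nonneg_right h5 hqpos.le
  refine le_trans ?_ h7
  have h8 : (q : ℝ) ^ (d * v) ≤ (k : ℝ) ^ d := by
    rw [mul_comm, pow_mul]
    exact pow_le_pow_left₀ (by positivity) h6 d
  have h9 : (1 / (q : ℝ)) ^ (d * v) / q = 1 / ((q : ℝ) * (q : ℝ) ^ (d * v)) := by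
    rw [one_div, inv_pow]
    field_simp
  rw [h9]
  apply one_div_le_one_div_of_le (by positivity)
  exact mul_le_mul_of_nonneg_left h8 hqpos.le

theorem part2c (d q v i : ℕ) (hd : 2 ≤ d) (hq : q.Prime) (hv : 1 ≤ v) :
    (∃ δ, IsDensity d (q ^ v) q i δ ∧ 2 / ((q : ℝ) ^ v) ^ 2 ≤ δ) ∧
    (∃ δ, IsDensity d (q ^ v + 1) q i δ ∧ 1 / ((q : ℝ) * (q : ℝ) ^ v) ≤ δ) := by
  have : Fact q.Prime := ⟨hq⟩
  have hqpos : (0 : ℝ) < q := by exact_mod_cast hq.pos
  have hpos : 0 < q ^ v := pow_pos hq.pos _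
  have hlt : 1 < q ^ v := Nat.one_lt_pow (by omega) hq.one_lt
  obtain ⟨u, rfl⟩ : ∃ u, v = u + 1 := ⟨v - 1, by omega⟩
  constructor
  · obtain ⟨δ, hδ, hl, -⟩ := part2b d q (u + 1) (q ^ (u + 1)) i hd hq hv le_rfl (by omega)
    refine ⟨δ, hδ, ?_⟩
    rw [eval_pow q d u hd] at hl
    refine le_trans (le_of_eq ?_) hl
    rw [div_div, ← pow_mul, ← pow_succ]
    congr 2
    ring
  · obtain ⟨δ, hδ, hl, -⟩ := part2b d q (u + 1) (q ^ (u + 1) + 1) i hd hq hv (by omega) (by omega)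
    refine ⟨δ, hδ, ?_⟩
    rw [eval_pow_succ q d u hd] at hl
    refine le_trans (le_of_eq ?_) hl
    rw [one_div, one_div, inv_pow]
    field_simp

theorem result :
    (∀ (d k m q i : ℕ) (δ : ℝ), 2 ≤ k → q.Prime → q ∣ m → IsDensity d k m i δ →
      δ ≤ 1 - w q (Nn q d k)) ∧
    (∀ (d k q s N' i : ℕ), 1 ≤ k → q.Prime → N' < q ^ s → Nn q d k = q ^ s + N' →
      ∃ δ, IsDensity d k q i δ ∧ w q N' / q ≤ δ) ∧
    (∀ (d q v k i : ℕ), 2 ≤ d → q.Prime → 1 ≤ v → q ^ v ≤ k → k < 2 * q ^ v →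
      ∃ δ, IsDensity d k q i δ ∧ w q (Nn q d k - q ^ (d * v)) / q ≤ δ ∧
        1 / ((q : ℝ) * (k : ℝ) ^ d) ≤ δ) ∧
    (∀ (d q v i : ℕ), 2 ≤ d → q.Prime → 1 ≤ v →
      (∃ δ, IsDensity d (q ^ v) q i δ ∧ 2 / ((q : ℝ) ^ v) ^ 2 ≤ δ) ∧
      (∃ δ, IsDensity d (q ^ v + 1) q i δ ∧ 1 / ((q : ℝ) * (q : ℝ) ^ v) ≤ δ)) ∧
    (∀ (q v : ℕ), q.Prime → 1 ≤ v → ∃ k : ℕ, q ^ v ≤ k ∧ k < 2 * q ^ v ∧ ∀ i : ℕ,
      ∃ δ, IsDensity 2 k q i δ ∧
        (1 / (q : ℝ)) * (1 - 1 / (q : ℝ)) ^ (Nat.log 2 v + 1) ≤ δ ∧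
        δ ≤ 1 - (1 - 1 / (q : ℝ)) ^ (Nat.log 2 v + 2)) :=
  ⟨part1, part2, part2b, part2c, part3⟩

end Pool.Agent.Results.MP_28accd_nt.DigitBounds
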