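import Pool.Agent.PKP.Count
import Pool.Agent.RP28b.Dens

/-! MP_28accd_nt: laws connecting the densities for `k` and `k + 1`. -/

set_option autoImplicit false

namespace Pool.Agent.Results.MP_28accd_nt.StepLaws

open Finset Filter Topology Pool.Agent.PKP

/-- the number of `1 ≤ n ≤ N` for which the number of partitions of `n` into parts from
`{1^d, ..., k^d}` lies in the residue class `x` modulo `m` -/
noncomputable def E (d k m : ℕ) (x : ZMod m) (N : ℕ) : ℕ :=
  ((Icc 1 N).filter fun n => (P d k n : ZMod m) = x).card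

/-- `δ` is the natural density of the `n` with that property -/
def IsDens (d k m : ℕ) (x : ZMod m) (δ : ℝ) : Prop :=
  Tendsto (fun N : ℕ => (E d k m x N : ℝ) / (N : ℝ)) atTop (𝓝 δ)

private lemma P_one (d n : ℕ) : P d 1 n = 1 := by
  induction n with
  | zero => rw [P_succ, P_zero]; simp
  | succ n ih =>
    rw [P_succ, P_zero]
    simp [ih]

private lemma rec (d k m n : ℕ) :
    (P d (k + 1) (n + (k + 1) ^ d) : ZMod m) =
      (P d k (n + (k + 1) ^ d) : ZMod m) + (P d (k + 1) n : ZMod m) := by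
  rw [P_succ, if_pos (by omega)]
  push_cast
  simp

private lemma per (d m : ℕ) (hm : 1 ≤ m) : ∀ k : ℕ, ∃ R, 0 < R ∧
    ∀ n, (P d (k + 1) (n + R) : ZMod m) = (P d (k + 1) n : ZMod m) := by
  intro k
  induction k with
  | zero => exact ⟨1, one_pos, fun n => by rw [P_one, P_one]⟩
  | succ k ih =>
    obtain ⟨R, hR, hper⟩ := ih
    obtain ⟨a, ha⟩ : ∃ a, a = (k + 2) ^ d := ⟨_, rfl⟩
    have hapos : 0 < a := by rw [ha]; positivity
    have hmul : ∀ t n, (P d (k + 1) (n + t * R) : ZMod m) = (P d (k + 1) n : ZMod m) := by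
      intro t
      induction t with
      | zero => intro n; simp
      | succ t iht =>
        intro n
        have : n + (t + 1) * R = (n + t * R) + R := by ring
        rw [this, hper, iht]
    have hrec : ∀ n, (P d (k + 2) (n + a) : ZMod m) =
        (P d (k + 1) (n + a) : ZMod m) + (P d (k + 2) n : ZMod m) := by
      intro n; rw [ha]; exact rec d (k + 1) m n
    have hsum : ∀ i n, (P d (k + 2) (n + i * a) : ZMod m) =
        (P d (k + 2) n : ZMod m) + ∑ j ∈ range i, (P d (k + 1) (n + (j + 1) * a) : ZMod m) := by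
      intro i
      induction i with
      | zero => intro n; simp
      | succ i ihi =>
        intro n
        have : n + (i + 1) * a = (n + i * a) + a := by ring
        rw [this, hrec, ihi, sum_range_succ]
        have h2 : n + (i + 1) * a = n + i * a + a := by ring
        rw [h2]
        ring
    have ht : ∀ t n, (P d (k + 2) (n + t * (R * a)) : ZMod m) =
        (P d (k + 2) n : ZMod m) + t * ∑ j ∈ range R, (P d (k + 1) (n + (j + 1) * a) : ZMod m) := by
      intro t
      induction t with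
      | zero => intro n; simp
      | succ t iht =>
        intro n
        have : n + (t + 1) * (R * a) = (n + t * (R * a)) + R * a := by ring
        rw [this, hsum, iht]
        have h3 : ∀ j ∈ range R, (P d (k + 1) (n + t * (R * a) + (j + 1) * a) : ZMod m)
            = (P d (k + 1) (n + (j + 1) * a) : ZMod m) := by
          intro j _
          have : n + t * (R * a) + (j + 1) * a = (n + (j + 1) * a) + (t * a) * R := by ring
          rw [this, hmul]
        rw [sum_congr rfl h3]
        push_cast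
        ring
    refine ⟨m * (R * a), by positivity, fun n => ?_⟩
    rw [ht]
    simp

private lemma exists_dens (d k m : ℕ) (hm : 1 ≤ m) (x : ZMod m) : ∃ δ, IsDens d (k + 1) m x δ := by
  classical
  obtain ⟨R, hR, hper⟩ := per d m hm k
  have h := Pool.Agent.RP28b.dens (fun n => (P d (k + 1) n : ZMod m) = x) R 0 hR
    (by intro n _; simp only [hper])
  exact ⟨_, h⟩

private lemma shift_card (Q : ℕ → Prop) [DecidablePred Q] (a N : ℕ) :
    ((Icc 1 N).filter (fun n => a < n ∧ Q (n - a))).card =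
      ((Icc 1 (N - a)).filter Q).card := by
  refine card_bij' (fun n _ => n - a) (fun n _ => n + a) ?_ ?_ ?_ ?_
  · intro n hn
    rw [mem_filter, mem_Icc] at hn ⊢
    exact ⟨by omega, hn.2.2⟩
  · intro n hn
    rw [mem_filter, mem_Icc] at hn ⊢
    refine ⟨by omega, by omega, ?_⟩
    rw [Nat.add_sub_cancel]
    exact hn.2
  · intro n hn
    rw [mem_filter] at hn
    omega
  · intro n hn
    omega

private lemma near (Q : ℕ → Prop) [DecidablePred Q] (a N : ℕ) :
    ((Icc 1 N).filter Q).card ≤ ((Icc 1 (N - a)).filter Q).card + a := by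
  have h : (Icc 1 N).filter Q ⊆ (Icc 1 (N - a)).filter Q ∪ Ioc (N - a) N := by
    intro n hn
    rw [mem_filter, mem_Icc] at hn
    rw [mem_union, mem_filter, mem_Icc, mem_Ioc]
    by_cases h1 : n ≤ N - a
    · left; exact ⟨⟨hn.1.1, h1⟩, hn.2⟩
    · right; omega
  have h2 := (card_le_card h).trans (card_union_le _ _)
  rw [Nat.card_Ioc] at h2
  omega

private lemma mono (Q : ℕ → Prop) [DecidablePred Q] (a N : ℕ) :
    ((Icc 1 (N - a)).filter Q).card ≤ ((Icc 1 N).filter Q).card := by
  apply card_le_card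
  intro n hn
  rw [mem_filter, mem_Icc] at hn ⊢
  exact ⟨by omega, hn.2⟩

private lemma card_N (Q : ℕ → Prop) [DecidablePred Q] (N : ℕ) :
    ((Icc 1 N).filter Q).card ≤ N := by
  refine (card_filter_le _ _).trans ?_
  simp

private lemma rec' (d k m n : ℕ) (h : (k + 1) ^ d < n) :
    (P d (k + 1) n : ZMod m) = (P d k n : ZMod m) + (P d (k + 1) (n - (k + 1) ^ d) : ZMod m) := by
  rw [P_succ, if_pos h.le]
  push_cast
  rfl

private lemma count1 (d k m : ℕ) (x : ZMod m) (N : ℕ) :
    E d (k + 1) m x N + E d (k + 1) m x N ≤ E d k m 0 N + N + (k + 1) ^ d := by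
  classical
  obtain ⟨a, ha⟩ : ∃ a, a = (k + 1) ^ d := ⟨_, rfl⟩
  rw [← ha]
  set A := (Icc 1 N).filter (fun n => (P d (k + 1) n : ZMod m) = x) with hA
  set B := (Icc 1 N).filter (fun n => a < n ∧ (P d (k + 1) (n - a) : ZMod m) = x) with hB
  have h1 : A.card ≤ B.card + a := by
    rw [hA, hB, shift_card (fun n => (P d (k + 1) n : ZMod m) = x)]
    exact near _ a N
  have h2 : (A ∪ B).card ≤ N := by
    have : A ∪ B ⊆ Icc 1 N := union_subset (filter_subset _ _) (filter_subset _ _)
    have := card_le_card this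
    simpa using this
  have h3 : (A ∩ B).card ≤ E d k m 0 N := by
    apply card_le_card
    intro n hn
    rw [mem_inter, hA, hB, mem_filter, mem_filter] at hn
    rw [mem_filter]
    refine ⟨hn.1.1, ?_⟩
    have h4 := rec' d k m n (by rw [← ha]; exact hn.2.2.1)
    rw [← ha, hn.1.2, hn.2.2.2] at h4
    have : (P d k n : ZMod m) + x = 0 + x := by rw [zero_add]; exact h4.symm
    exact add_right_cancel this
  have h5 := card_union_add_card_inter A B
  have h6 : E d (k + 1) m x N = A.card := rfl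
  omega

private lemma count2 (d k m : ℕ) (x c : ZMod m) (N : ℕ) :
    E d (k + 1) m (x + c) N + E d k m c N ≤ E d (k + 1) m x N + N + (k + 1) ^ d := by
  classical
  obtain ⟨a, ha⟩ : ∃ a, a = (k + 1) ^ d := ⟨_, rfl⟩
  rw [← ha]
  set A := (Icc 1 N).filter (fun n => (P d (k + 1) n : ZMod m) = x + c) with hA
  set C := (Icc 1 N).filter (fun n => (P d k n : ZMod m) = c) with hC
  set B := (Icc 1 N).filter (fun n => a < n ∧ (P d (k + 1) (n - a) : ZMod m) = x) with hB
  have h1 : B.card ≤ E d (k + 1) m x N := by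
    rw [hB, shift_card (fun n => (P d (k + 1) n : ZMod m) = x)]
    exact mono _ a N
  have h2 : (A ∪ C).card ≤ N := by
    have : A ∪ C ⊆ Icc 1 N := union_subset (filter_subset _ _) (filter_subset _ _)
    have := card_le_card this
    simpa using this
  have h3 : (A ∩ C).card ≤ B.card + a := by
    have h : A ∩ C ⊆ B ∪ Icc 1 a := by
      intro n hn
      rw [mem_inter, hA, hC, mem_filter, mem_filter] at hn
      rw [mem_union]
      by_cases h7 : a < n
      · left
        rw [hB, mem_filter]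
        refine ⟨hn.1.1, h7, ?_⟩
        have h4 := rec' d k m n (by rw [← ha]; exact h7)
        rw [← ha, hn.1.2, hn.2.2, add_comm] at h4
        exact (add_left_cancel h4).symm
      · right
        have := hn.1.1
        rw [mem_Icc] at this ⊢
        omega
    have := (card_le_card h).trans (card_union_le _ _)
    simpa using this
  have h5 := card_union_add_card_inter A C
  have h6 : E d (k + 1) m (x + c) N = A.card := rfl
  have h7 : E d k m c N = C.card := rfl
  omega

private lemma count3 (d k m : ℕ) (x c : ZMod m) (N : ℕ) :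
    E d (k + 1) m x N + E d k m c N ≤ E d (k + 1) m (x + c) N + N + (k + 1) ^ d := by
  classical
  obtain ⟨a, ha⟩ : ∃ a, a = (k + 1) ^ d := ⟨_, rfl⟩
  rw [← ha]
  set A := (Icc 1 N).filter (fun n => (P d (k + 1) n : ZMod m) = x + c) with hA
  set C := (Icc 1 N).filter (fun n => (P d k n : ZMod m) = c) with hC
  set B := (Icc 1 N).filter (fun n => a < n ∧ (P d (k + 1) (n - a) : ZMod m) = x) with hB
  have h1 : E d (k + 1) m x N ≤ B.card + a := by
    rw [hB, shift_card (fun n => (P d (k + 1) n : ZMod m) = x)]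
    exact near _ a N
  have h2 : (B ∪ C).card ≤ N := by
    have : B ∪ C ⊆ Icc 1 N := union_subset (filter_subset _ _) (filter_subset _ _)
    have := card_le_card this
    simpa using this
  have h3 : (B ∩ C).card ≤ A.card := by
    apply card_le_card
    intro n hn
    rw [mem_inter, hB, hC, mem_filter, mem_filter] at hn
    rw [hA, mem_filter]
    refine ⟨hn.1.1, ?_⟩
    have h4 := rec' d k m n (by rw [← ha]; exact hn.1.2.1)
    rw [← ha, hn.1.2.2, hn.2.2] at h4
    rw [h4, add_comm]
  have h5 := card_union_add_card_inter B C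
  have h6 : E d (k + 1) m (x + c) N = A.card := rfl
  have h7 : E d k m c N = C.card := rfl
  omega

private lemma lim_one : Tendsto (fun N : ℕ => (N : ℝ) / (N : ℝ)) atTop (𝓝 1) := by
  refine tendsto_const_nhds.congr' ?_
  filter_upwards [eventually_gt_atTop 0] with N hN
  have : (N : ℝ) ≠ 0 := by positivity
  rw [div_self this]

private lemma lim3 (f g h : ℕ → ℕ) (α β γ : ℝ) (a : ℕ)
    (hf : Tendsto (fun N : ℕ => (f N : ℝ) / (N : ℝ)) atTop (𝓝 α))
    (hg : Tendsto (fun N : ℕ => (g N : ℝ) / (N : ℝ)) atTop (𝓝 β))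
    (hh : Tendsto (fun N : ℕ => (h N : ℝ) / (N : ℝ)) atTop (𝓝 γ))
    (H : ∀ N, f N + g N ≤ h N + N + a) : α + β ≤ γ + 1 := by
  have h1 := hf.add hg
  have h2 := (hh.add lim_one).add (tendsto_const_div_atTop_nhds_zero_nat (a : ℝ))
  rw [add_zero] at h2
  refine le_of_tendsto_of_tendsto' h1 h2 fun N => ?_
  rw [← add_div, ← add_div, ← add_div]
  apply div_le_div_of_nonneg_right _ (Nat.cast_nonneg N)
  exact_mod_cast H N

theorem result (d m : ℕ) (hm : 2 ≤ m) :
    ∃ δ : ℕ → ZMod m → ℝ, (∀ k x, 1 ≤ k → IsDens d k m x (δ k x)) ∧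
      (∀ k x, 1 ≤ k → 2 * δ (k + 1) x ≤ 1 + δ k 0) ∧
      (∀ k x c, 1 ≤ k → |δ (k + 1) (x + c) - δ (k + 1) x| ≤ 1 - δ k c) ∧
      (∀ k x (c : (ZMod m)ˣ), 1 ≤ k →
        |δ (k + 1) x - 1 / m| ≤ (m - 1) / 2 * (1 - δ k (c : ZMod m))) ∧
      (∀ k x, 1 ≤ k → x ≠ 0 → δ k x + 2 * δ (k + 1) x ≤ 2) ∧
      (∀ k x, 1 ≤ k → x ≠ 0 → δ k x ≤ 2 / 3 ∨ δ (k + 1) x ≤ 2 / 3) := by
  classical
  have : NeZero m := ⟨by omega⟩
  choose δ' hδ' using fun k : ℕ => fun x : ZMod m => exists_dens d k m (by omega) x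
  let δ : ℕ → ZMod m → ℝ := fun k x => δ' (k - 1) x
  have hδ : ∀ k x, 1 ≤ k → IsDens d k m x (δ k x) := by
    intro k x hk
    have := hδ' (k - 1) x
    rwa [Nat.sub_add_cancel hk] at this
  have h0 : ∀ k x, 1 ≤ k → 0 ≤ δ k x := fun k x hk =>
    ge_of_tendsto' (hδ k x hk) fun N => by positivity
  have hsum : ∀ k, 1 ≤ k → ∑ x : ZMod m, δ k x = 1 := by
    intro k hk
    have h1 : Tendsto (fun N : ℕ => ∑ x : ZMod m, (E d k m x N : ℝ) / (N : ℝ)) atTop
        (𝓝 (∑ x : ZMod m, δ k x)) := tendsto_finsetSum _ fun x _ => hδ k x hk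
    have h2 : (fun N : ℕ => ∑ x : ZMod m, (E d k m x N : ℝ) / (N : ℝ))
        = fun N : ℕ => (N : ℝ) / (N : ℝ) := by
      funext N
      rw [← sum_div]
      congr 1
      have h3 := card_eq_sum_card_fiberwise (s := Icc 1 N) (t := (univ : Finset (ZMod m)))
        (f := fun n => (P d k n : ZMod m)) (fun _ _ => by simp)
      rw [Nat.card_Icc, Nat.add_sub_cancel] at h3
      conv_rhs => rw [h3]
      push_cast
      rfl
    rw [h2] at h1
    exact tendsto_nhds_unique h1 lim_one
  have hone : ∀ k x, 1 ≤ k → 2 * δ (k + 1) x ≤ 1 + δ k 0 := by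
    intro k x hk
    have := lim3 _ _ _ _ _ _ _ (hδ (k + 1) x (by omega)) (hδ (k + 1) x (by omega)) (hδ k 0 hk)
      (count1 d k m x)
    linarith
  have htwo : ∀ k x c, 1 ≤ k → |δ (k + 1) (x + c) - δ (k + 1) x| ≤ 1 - δ k c := by
    intro k x c hk
    have h1 := lim3 _ _ _ _ _ _ _ (hδ (k + 1) (x + c) (by omega)) (hδ k c hk)
      (hδ (k + 1) x (by omega)) (count2 d k m x c)
    have h2 := lim3 _ _ _ _ _ _ _ (hδ (k + 1) x (by omega)) (hδ k c hk)
      (hδ (k + 1) (x + c) (by omega)) (count3 d k m x c)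
    rw [abs_le]
    constructor <;> linarith
  have hfive : ∀ k x, 1 ≤ k → x ≠ 0 → δ k x + 2 * δ (k + 1) x ≤ 2 := by
    intro k x hk hx
    have h3 := hone k x hk
    have h4 : δ k 0 + δ k x ≤ 1 := by
      rw [← hsum k hk]
      have : δ k 0 + δ k x = ∑ y ∈ ({0, x} : Finset (ZMod m)), δ k y := by
        rw [sum_pair hx.symm]
      rw [this]
      exact sum_le_sum_of_subset_of_nonneg (subset_univ _) fun y _ _ => h0 k y hk
    linarith
  refine ⟨δ, hδ, hone, htwo, ?_, ?_, ?_⟩
  · intro k x c hk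
    obtain ⟨ε, hε⟩ : ∃ ε, ε = 1 - δ k (c : ZMod m) := ⟨_, rfl⟩
    rw [← hε]
    have hstep : ∀ t : ℕ, |δ (k + 1) (x + t * c) - δ (k + 1) x| ≤ t * ε := by
      intro t
      induction t with
      | zero => simp
      | succ t ih =>
        have h1 := htwo k (x + t * c) c hk
        rw [← hε] at h1
        have h2 : x + ((t + 1 : ℕ) : ZMod m) * c = x + t * c + c := by push_cast; ring
        rw [h2]
        have h3 := abs_sub_le (δ (k + 1) (x + t * c + c)) (δ (k + 1) (x + t * c)) (δ (k + 1) x)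
        push_cast
        linarith
    have hbij : ∑ y : ZMod m, δ (k + 1) (x + y * c) = 1 := by
      rw [← hsum (k + 1) (by omega)]
      exact Fintype.sum_equiv ((Units.mulRight c).trans (Equiv.addLeft x)) _ _ (fun y => by simp)
    have hval : ∀ y : ZMod m, |δ (k + 1) (x + y * c) - δ (k + 1) x| ≤ y.val * ε := by
      intro y
      have := hstep y.val
      rwa [ZMod.natCast_zmod_val] at this
    have hvs : ∑ y : ZMod m, (y.val : ℝ) = m * (m - 1) / 2 := by
      obtain ⟨n, rfl⟩ : ∃ n, m = n + 1 := ⟨m - 1, by omega⟩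
      have h1 : ∑ y : ZMod (n + 1), (y.val : ℝ) = ∑ i ∈ range (n + 1), (i : ℝ) :=
        Fin.sum_univ_eq_sum_range (fun i => (i : ℝ)) (n + 1)
      rw [h1]
      have h2 := Finset.sum_range_id_mul_two (n + 1)
      rw [Nat.add_sub_cancel] at h2
      have h3 : ((∑ i ∈ range (n + 1), i : ℕ) : ℝ) * 2 = ((n + 1 : ℕ) : ℝ) * (n : ℝ) := by
        exact_mod_cast h2
      rw [Nat.cast_sum] at h3
      push_cast at h3 ⊢
      linarith
    have hmpos : (0 : ℝ) < m := by exact_mod_cast (by omega : 0 < m)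
    have h4 : |∑ y : ZMod m, (δ (k + 1) (x + y * c) - δ (k + 1) x)| ≤ m * (m - 1) / 2 * ε := by
      refine (abs_sum_le_sum_abs _ _).trans ?_
      rw [← hvs, sum_mul]
      exact sum_le_sum fun y _ => hval y
    rw [sum_sub_distrib, hbij, sum_const, card_univ, ZMod.card, nsmul_eq_mul] at h4
    have h5 : δ (k + 1) x - 1 / m = -((1 - m * δ (k + 1) x) / m) := by
      field_simp
      ring
    rw [h5, abs_neg, abs_div, abs_of_pos hmpos, div_le_iff₀ hmpos]
    linarith
  · exact hfive
  · intro k x hk hx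
    have := hfive k x hk hx
    by_contra hc
    push Not at hc
    linarith [hc.1, hc.2]

end Pool.Agent.Results.MP_28accd_nt.StepLaws
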